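import Pool.Agent.Lib_helper88.EQQ.Main
import Pool.Agent.Lib_helper18.AQ.K.Defs

/-!
# AQ (MP_892e4c_nt): (EQ-Q) for all forms of determinant `D` (helper88)
-/

set_option autoImplicit false

namespace Pool.Agent.AQ.PENK

open Finset Pool.Agent.PENT Pool.Agent.PENK

theorem exists_EQQ (I : FD) (hns : ¬ IsSquare (-I.D)) :
    ∃ δ : ℝ, 0 < δ ∧ δ ≤ 1 / 10 ∧ @EQQ I δ := by
  obtain ⟨c, hc, hc1, H⟩ := Pool.Agent.AQ.MJ.majD I.D hns
  refine ⟨c, hc, by linarith, ?_⟩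
  intro C4 hC4
  obtain ⟨C, x₀, hC, hx0, H2⟩ := H C4 hC4
  refine ⟨C, x₀, hC, hx0, ?_⟩
  intro x hx G hG1 hG2
  obtain ⟨O, f, h1, h2, h3⟩ := H2 x hx G hG1 hG2
  refine ⟨O, f, h1, h2, ?_⟩
  intro T h hT hprod hper hb
  refine h3 T (fun p hp => ?_) (fun p hp p' hp' hne => ?_) hprod h hper hb
  · obtain ⟨hpp, hpN⟩ := hT p hp
    have h2 : 2 < p := lt_of_le_of_lt I.two hpN
    refine ⟨hpp.odd_of_ne_two (by omega), ?_⟩
    have h4 := I.bad p hpp hpN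
    exact ((Nat.prime_iff_prime_int.1 hpp).coprime_iff_not_dvd.2 h4).symm
  · exact (Nat.coprime_primes (hT p hp).1 (hT p' hp').1).2 hne

end Pool.Agent.AQ.PENK
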