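import Mathlib

/-!
# AQ (MP_892e4c_nt): reduction of the integral binary quadratic forms of a non-square determinant, with
the real reduced majorant (helper88)
-/

set_option autoImplicit false

namespace Pool.Agent.AQ.MJ

/-- `F ∘ M`, `M = (α, β; γ, δ)` -/
def cmp (F : ℤ × ℤ × ℤ) (g : ℤ × ℤ × ℤ × ℤ) : ℤ × ℤ × ℤ :=
  (F.1 * g.1 ^ 2 + 2 * F.2.1 * (g.1 * g.2.2.1) + F.2.2 * g.2.2.1 ^ 2,
   F.1 * (g.1 * g.2.1) + F.2.1 * (g.1 * g.2.2.2 + g.2.1 * g.2.2.1) + F.2.2 * (g.2.2.1 * g.2.2.2),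
   F.1 * g.2.1 ^ 2 + 2 * F.2.1 * (g.2.1 * g.2.2.2) + F.2.2 * g.2.2.2 ^ 2)

/-- the majorant `g P`: `(g x + n y)² + |D| y²` -/
def NN (D g n : ℤ) (v : ℤ × ℤ) : ℤ := (g * v.1 + n * v.2) ^ 2 + |D| * v.2 ^ 2

theorem NN_pos {D g n : ℤ} (hD : D ≠ 0) (hg : 0 < g) {v : ℤ × ℤ} (hv : v ≠ 0) :
    0 < NN D g n v := by
  unfold NN
  have hD' : 0 < |D| := abs_pos.2 hD
  by_cases h : v.2 = 0
  · have h1 : v.1 ≠ 0 := by
      intro h1
      exact hv (Prod.ext h1 h)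
    rw [h]
    have : 0 < (g * v.1) ^ 2 := by
      have : g * v.1 ≠ 0 := mul_ne_zero hg.ne' h1
      positivity
    have e : (g * v.1 + n * 0) ^ 2 + |D| * 0 ^ 2 = (g * v.1) ^ 2 := by ring
    rw [e]
    exact this
  · have : 0 < |D| * v.2 ^ 2 := by positivity
    have h2 := sq_nonneg (g * v.1 + n * v.2)
    linarith

theorem NN_min (D g n : ℤ) : ∃ v : ℤ × ℤ, v ≠ 0 ∧ ∀ w : ℤ × ℤ, w ≠ 0 →
    (NN D g n v).natAbs ≤ (NN D g n w).natAbs := by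
  obtain ⟨v, hv, hmin⟩ := WellFounded.has_min (measure (fun v : ℤ × ℤ => (NN D g n v).natAbs)).wf
    {v : ℤ × ℤ | v ≠ 0} ⟨(1, 0), by simp⟩
  refine ⟨v, hv, fun w hw => ?_⟩
  exact not_lt.1 (hmin w hw)

theorem NN_smul (D g n e : ℤ) (v : ℤ × ℤ) : NN D g n (e * v.1, e * v.2) = e ^ 2 * NN D g n v := by
  unfold NN; ring

/-- a minimal vector is primitive -/
theorem NN_prim {D g n : ℤ} (hD : D ≠ 0) (hg : 0 < g) {v : ℤ × ℤ} (hv : v ≠ 0)
    (hmin : ∀ w : ℤ × ℤ, w ≠ 0 → (NN D g n v).natAbs ≤ (NN D g n w).natAbs) :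
    IsCoprime v.1 v.2 := by
  rw [Int.isCoprime_iff_gcd_eq_one]
  set e : ℕ := Int.gcd v.1 v.2 with he
  have he0 : e ≠ 0 := by
    intro h
    rw [he, Int.gcd_eq_zero_iff] at h
    exact hv (Prod.ext h.1 h.2)
  obtain ⟨x, hx⟩ : (e : ℤ) ∣ v.1 := Int.gcd_dvd_left ..
  obtain ⟨y, hy⟩ : (e : ℤ) ∣ v.2 := Int.gcd_dvd_right ..
  have hw : ((x, y) : ℤ × ℤ) ≠ 0 := by
    intro h
    have h1 : x = 0 := congrArg Prod.fst h
    have h2 : y = 0 := congrArg Prod.snd h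
    exact hv (Prod.ext (by rw [hx, h1, mul_zero]; rfl) (by rw [hy, h2, mul_zero]; rfl))
  have h1 := hmin _ hw
  have h2 : NN D g n v = (e : ℤ) ^ 2 * NN D g n (x, y) := by
    rw [← NN_smul]
    simp only
    rw [← hx, ← hy]
  have h3 : 0 < (NN D g n (x, y)).natAbs := Int.natAbs_pos.2 (NN_pos hD hg hw).ne'
  rw [h2, Int.natAbs_mul, Int.natAbs_pow, Int.natAbs_natCast] at h1
  by_contra hne
  have h4 : 2 ≤ e := by omega
  have h5 : 2 * (NN D g n (x, y)).natAbs ≤ e ^ 2 * (NN D g n (x, y)).natAbs :=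
    Nat.mul_le_mul_right _ (by nlinarith)
  omega

/-- centered remainder -/
theorem cdiv (B A : ℤ) (hA : 0 < A) : ∃ k : ℤ, |2 * (B + k * A)| ≤ A := by
  refine ⟨-((2 * B + A) / (2 * A)), ?_⟩
  have h1 := Int.mul_ediv_add_emod (2 * B + A) (2 * A)
  have h2 := Int.emod_nonneg (2 * B + A) (show 2 * A ≠ 0 by omega)
  have h3 := Int.emod_lt_of_pos (2 * B + A) (show 0 < 2 * A by omega)
  rw [abs_le]
  constructor <;> nlinarith

theorem qlow {A B C g : ℤ} (hA : 0 < A) (hBA : |2 * B| ≤ A) (hAC : A ≤ C) (hgA : g ≤ A) (X Y : ℤ) :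
    g * (X ^ 2 + Y ^ 2) ≤ 2 * (A * X ^ 2 + 2 * B * (X * Y) + C * Y ^ 2) := by
  have h1 : A * Y ^ 2 ≤ C * Y ^ 2 := mul_le_mul_of_nonneg_right hAC (sq_nonneg _)
  have h2 : |2 * B * (X * Y)| ≤ A * |X * Y| := by
    rw [abs_mul]
    exact mul_le_mul_of_nonneg_right hBA (abs_nonneg _)
  have h3 : 2 * |X * Y| ≤ X ^ 2 + Y ^ 2 := by
    rw [abs_mul]
    nlinarith [sq_nonneg (|X| - |Y|), sq_abs X, sq_abs Y]
  have h4 := (abs_le.1 h2).1
  have h5 : A * (2 * |X * Y|) ≤ A * (X ^ 2 + Y ^ 2) := mul_le_mul_of_nonneg_left h3 hA.le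
  have h6 : g * (X ^ 2 + Y ^ 2) ≤ A * (X ^ 2 + Y ^ 2) :=
    mul_le_mul_of_nonneg_right hgA (by positivity)
  have e1 : A * (2 * |X * Y|) = 2 * (A * |X * Y|) := by ring
  have e2 : A * (X ^ 2 + Y ^ 2) = A * X ^ 2 + A * Y ^ 2 := by ring
  linarith

theorem qup {A B C E : ℤ} (hA : 0 < A) (hBA : |2 * B| ≤ A) (hAE : A ≤ 2 * E) (hCE : C ≤ 2 * E)
    (X Y : ℤ) :
    A * X ^ 2 + 2 * B * (X * Y) + C * Y ^ 2 ≤ 3 * E * (X ^ 2 + Y ^ 2) := by
  have h2 : |2 * B * (X * Y)| ≤ A * |X * Y| := by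
    rw [abs_mul]
    exact mul_le_mul_of_nonneg_right hBA (abs_nonneg _)
  have h3 : 2 * |X * Y| ≤ X ^ 2 + Y ^ 2 := by
    rw [abs_mul]
    nlinarith [sq_nonneg (|X| - |Y|), sq_abs X, sq_abs Y]
  have h4 := (abs_le.1 h2).2
  have h5 : A * (2 * |X * Y|) ≤ A * (X ^ 2 + Y ^ 2) := mul_le_mul_of_nonneg_left h3 hA.le
  have h6 : A * (X ^ 2 + Y ^ 2) ≤ 2 * E * (X ^ 2 + Y ^ 2) :=
    mul_le_mul_of_nonneg_right hAE (by positivity)
  have h7 : A * X ^ 2 ≤ 2 * E * X ^ 2 := mul_le_mul_of_nonneg_right hAE (sq_nonneg _)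
  have h8 : C * Y ^ 2 ≤ 2 * E * Y ^ 2 := mul_le_mul_of_nonneg_right hCE (sq_nonneg _)
  have e1 : A * (2 * |X * Y|) = 2 * (A * |X * Y|) := by ring
  have e2 : 3 * E * (X ^ 2 + Y ^ 2) = 2 * E * X ^ 2 + 2 * E * Y ^ 2 + E * (X ^ 2 + Y ^ 2) := by
    ring
  have e3 : 2 * E * (X ^ 2 + Y ^ 2) = 2 * (E * (X ^ 2 + Y ^ 2)) := by ring
  linarith

/-- the bounds for a reduced pair -/
theorem ACbd {A B C g d : ℤ} (hg : 0 < g) (hd : 1 ≤ d) (hA : 0 < A) (hgA : g ≤ A) (hAC : A ≤ C)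
    (hBB : 4 * B ^ 2 ≤ A ^ 2) (hdis : A * C - B ^ 2 = g ^ 2 * d) :
    A ≤ 2 * (g * d) ∧ C ≤ 2 * (g * d) := by
  have hA2 : 3 * A ^ 2 ≤ 4 * (g ^ 2 * d) := by
    have : A * A ≤ A * C := mul_le_mul_of_nonneg_left hAC hA.le
    nlinarith
  have hAle : A ≤ 2 * (g * d) := by
    by_contra hc
    push Not at hc
    have h1 : 0 < 2 * (g * d) := by positivity
    have h2 : (2 * (g * d)) ^ 2 < A ^ 2 := pow_lt_pow_left₀ hc h1.le two_ne_zero
    have h3 : g ^ 2 * d ≤ g ^ 2 * d * d := le_mul_of_one_le_right (by positivity) hd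
    have e : (2 * (g * d)) ^ 2 = 4 * (g ^ 2 * d * d) := by ring
    rw [e] at h2
    have h4 : 0 < g ^ 2 * d := by positivity
    linarith
  refine ⟨hAle, ?_⟩
  by_contra hc
  push Not at hc
  have h4 : A * (2 * (g * d)) < A * C := mul_lt_mul_of_pos_left hc hA
  have h5 : g * (g * d) ≤ A * (g * d) := mul_le_mul_of_nonneg_right hgA (by positivity)
  have h6 : A * A ≤ A * (2 * (g * d)) := mul_le_mul_of_nonneg_left hAle hA.le
  have e1 : A * (2 * (g * d)) = 2 * (A * (g * d)) := by ring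
  have e2 : g * (g * d) = g ^ 2 * d := by ring
  have e3 : A ^ 2 = A * A := by ring
  have h7 : 0 < A * (g * d) := by positivity
  linarith

/-- the last step: the sign of the matrix -/
theorem dec_key {D g n g' : ℤ} (hg : 0 < g) (hD1 : 1 ≤ |D|) (F : ℤ × ℤ × ℤ) (α β γ δ : ℤ)
    (e1 : F.1 * F.2.2 - F.2.1 ^ 2 = D) (e2 : |F.1| ≤ 8 * |D|)
    (e3 : |F.2.1| ≤ 8 * |D|) (e4 : |F.2.2| ≤ 8 * |D|) (e5 : α * δ - β * γ = 1) (e6 : |γ| ≤ |α|)
    (e7 : cmp F (α, β, γ, δ) = (g, n, g')) (e8 : α ^ 2 + γ ^ 2 ≤ 2 * g)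
    (e9 : g ≤ 3 * |D| * (α ^ 2 + γ ^ 2)) (e10 : g * β ^ 2 ≤ 2 * (n ^ 2 + |D|)) :
    ∃ (F : ℤ × ℤ × ℤ) (α β γ δ : ℤ), F.1 * F.2.2 - F.2.1 ^ 2 = D ∧
      |F.1| ≤ 8 * |D| ∧ |F.2.1| ≤ 8 * |D| ∧ |F.2.2| ≤ 8 * |D| ∧ α * δ - β * γ = 1 ∧ 0 < α ∧
      |γ| ≤ α ∧ cmp F (α, β, γ, δ) = (g, n, g') ∧ g ≤ 8 * |D| * α ^ 2 ∧ α ^ 2 ≤ 8 * |D| * g ∧
      g * β ^ 2 ≤ 8 * |D| * (n ^ 2 + |D|) := by
  have hDp : 0 < |D| := by linarith
  have hγ2 : γ ^ 2 ≤ α ^ 2 := sq_le_sq.2 e6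
  have hα0 : α ≠ 0 := by
    intro h0
    rw [h0] at hγ2 e9
    have h1 : γ ^ 2 = 0 := le_antisymm (by linarith) (sq_nonneg _)
    rw [h1] at e9
    simp at e9
    omega
  have f1 : g ≤ 8 * |D| * α ^ 2 := by
    have h1 : |D| * γ ^ 2 ≤ |D| * α ^ 2 := mul_le_mul_of_nonneg_left hγ2 hDp.le
    have h2 : 0 ≤ |D| * α ^ 2 := by positivity
    have e : 3 * |D| * (α ^ 2 + γ ^ 2) = 3 * (|D| * α ^ 2) + 3 * (|D| * γ ^ 2) := by ring
    have e' : 8 * |D| * α ^ 2 = 8 * (|D| * α ^ 2) := by ring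
    rw [e'] 
    linarith
  have f2 : α ^ 2 ≤ 8 * |D| * g := by
    have h1 : g ≤ |D| * g := le_mul_of_one_le_left hg.le hD1
    have h2 := sq_nonneg γ
    have e' : 8 * |D| * g = 8 * (|D| * g) := by ring
    rw [e']
    linarith
  have f3 : g * β ^ 2 ≤ 8 * |D| * (n ^ 2 + |D|) := by
    have h1 : 0 ≤ n ^ 2 + |D| := by positivity
    have h2 : n ^ 2 + |D| ≤ |D| * (n ^ 2 + |D|) := le_mul_of_one_le_left h1 hD1
    have e' : 8 * |D| * (n ^ 2 + |D|) = 8 * (|D| * (n ^ 2 + |D|)) := by ring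
    rw [e']
    linarith
  rcases lt_or_gt_of_ne hα0 with hneg | hpos
  · refine ⟨F, -α, -β, -γ, -δ, e1, e2, e3, e4, by linear_combination e5, by omega, ?_, ?_,
      by rw [neg_sq]; exact f1, by rw [neg_sq]; exact f2, by rw [neg_sq]; exact f3⟩
    · rw [abs_neg]
      rw [abs_of_neg hneg] at e6
      exact e6
    · rw [← e7]
      unfold cmp
      simp only
      refine Prod.ext ?_ (Prod.ext ?_ ?_) <;> simp only <;> ring
  · refine ⟨F, α, β, γ, δ, e1, e2, e3, e4, e5, hpos, ?_, e7, f1, f2, f3⟩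
    rw [abs_of_pos hpos] at e6
    exact e6

/-- **the reduction**: a bounded form `F` and a matrix `M` of the box with `F ∘ M` the given form -/
theorem dec (D : ℤ) (hD : ¬ IsSquare (-D)) : ∃ K : ℕ, 1 ≤ K ∧ ∀ g n g' : ℤ, 0 < g →
    g * g' - n ^ 2 = D → ∃ (F : ℤ × ℤ × ℤ) (α β γ δ : ℤ), F.1 * F.2.2 - F.2.1 ^ 2 = D ∧
      |F.1| ≤ K ∧ |F.2.1| ≤ K ∧ |F.2.2| ≤ K ∧ α * δ - β * γ = 1 ∧ 0 < α ∧ |γ| ≤ α ∧
      cmp F (α, β, γ, δ) = (g, n, g') ∧ g ≤ K * α ^ 2 ∧ α ^ 2 ≤ K * g ∧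
      g * β ^ 2 ≤ K * (n ^ 2 + |D|) := by
  have hD0 : D ≠ 0 := by
    rintro rfl
    exact hD ⟨0, by ring⟩
  have hDp : 0 < |D| := abs_pos.2 hD0
  refine ⟨8 * D.natAbs, by omega, ?_⟩
  intro g n g' hg hq
  have hK : ((8 * D.natAbs : ℕ) : ℤ) = 8 * |D| := by push_cast; rfl
  rw [hK]
  obtain ⟨v, hv, hmin⟩ := NN_min D g n
  obtain ⟨p, r, hpr⟩ := NN_prim hD0 hg hv hmin
  set x := v.1 with hx
  set y := v.2 with hy
  -- the second vector
  have hA0 : 0 < NN D g n v := NN_pos hD0 hg hv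
  obtain ⟨k, hk⟩ := cdiv ((g * x + n * y) * (g * (-r) + n * p) + |D| * (y * p)) (NN D g n v) hA0
  obtain ⟨u, hu⟩ : ∃ u : ℤ, u = -r + k * x := ⟨_, rfl⟩
  obtain ⟨w, hw⟩ : ∃ w : ℤ, w = p + k * y := ⟨_, rfl⟩
  have hdet : x * w - y * u = 1 := by rw [hu, hw]; linear_combination hpr
  obtain ⟨A, hA⟩ : ∃ A : ℤ, A = NN D g n v := ⟨_, rfl⟩
  obtain ⟨B, hB⟩ : ∃ B : ℤ, B = (g * x + n * y) * (g * u + n * w) + |D| * (y * w) := ⟨_, rfl⟩
  obtain ⟨C, hC⟩ : ∃ C : ℤ, C = NN D g n (u, w) := ⟨_, rfl⟩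
  have hAe : A = (g * x + n * y) ^ 2 + |D| * y ^ 2 := hA
  have hCe : C = (g * u + n * w) ^ 2 + |D| * w ^ 2 := hC
  have hBA : |2 * B| ≤ A := by
    rw [hA]
    refine le_trans (le_of_eq ?_) hk
    congr 1
    rw [hB, hu, hw]
    unfold NN
    ring
  have huw : ((u, w) : ℤ × ℤ) ≠ 0 := by
    intro h
    have h1 : u = 0 := congrArg Prod.fst h
    have h2 : w = 0 := congrArg Prod.snd h
    rw [h1, h2] at hdet
    simp at hdet
  have hAC : A ≤ C := by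
    have h1 := hmin (u, w) huw
    have h2 := NN_pos hD0 hg huw (n := n)
    rw [hA, hC]
    omega
  have hA0' : 0 < A := by rw [hA]; exact hA0
  have hdis : A * C - B ^ 2 = g ^ 2 * |D| := by
    rw [hAe, hCe, hB]
    linear_combination (g ^ 2 * |D| * (x * w - y * u + 1)) * hdet
  obtain ⟨hB1, hB2⟩ := abs_le.1 hBA
  have hBB : 4 * B ^ 2 ≤ A ^ 2 := by nlinarith
  -- the values of `q`
  have hval : ∀ a b : ℤ, g * (g * a ^ 2 + 2 * n * (a * b) + g' * b ^ 2) =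
      (g * a + n * b) ^ 2 + D * b ^ 2 := by
    intro a b
    linear_combination b ^ 2 * hq
  have hle : ∀ a b : ℤ, g * |g * a ^ 2 + 2 * n * (a * b) + g' * b ^ 2| ≤
      (g * a + n * b) ^ 2 + |D| * b ^ 2 := by
    intro a b
    have h1 : g * |g * a ^ 2 + 2 * n * (a * b) + g' * b ^ 2| =
        |g * (g * a ^ 2 + 2 * n * (a * b) + g' * b ^ 2)| := by
      rw [abs_mul, abs_of_pos hg]
    rw [h1, hval]
    calc |(g * a + n * b) ^ 2 + D * b ^ 2| ≤ |(g * a + n * b) ^ 2| + |D * b ^ 2| := abs_add_le _ _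
      _ = _ := by rw [abs_mul, abs_of_nonneg (sq_nonneg _), abs_of_nonneg (sq_nonneg b)]
  obtain ⟨F1, hF1⟩ : ∃ F1 : ℤ, F1 = g * x ^ 2 + 2 * n * (x * y) + g' * y ^ 2 := ⟨_, rfl⟩
  obtain ⟨F2, hF2⟩ : ∃ F2 : ℤ, F2 = g * (x * u) + n * (x * w + y * u) + g' * (y * w) := ⟨_, rfl⟩
  obtain ⟨F3, hF3⟩ : ∃ F3 : ℤ, F3 = g * u ^ 2 + 2 * n * (u * w) + g' * w ^ 2 := ⟨_, rfl⟩
  have hFd : F1 * F3 - F2 ^ 2 = D := by
    rw [hF1, hF2, hF3]
    linear_combination (x * w - y * u) ^ 2 * hq + D * (x * w - y * u + 1) * hdet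
  have hF1A : g * |F1| ≤ A := by rw [hF1, hAe]; exact hle x y
  have hF3C : g * |F3| ≤ C := by rw [hF3, hCe]; exact hle u w
  have hF10 : F1 ≠ 0 := by
    intro h0
    have h1 := hval x y
    rw [← hF1, h0, mul_zero] at h1
    have h2 : (-D) * y ^ 2 = (g * x + n * y) ^ 2 := by linarith
    by_cases hy0 : y = 0
    · have h3 : (g * x) ^ 2 = 0 := by
        rw [hy0] at h2
        linear_combination -h2
      have h4 : g * x = 0 := by simpa using h3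
      have h5 : x = 0 := by
        rcases mul_eq_zero.1 h4 with h | h
        · omega
        · exact h
      exact hv (Prod.ext h5 hy0)
    · apply hD
      have h3 : y ^ 2 ∣ (g * x + n * y) ^ 2 := ⟨-D, by linarith⟩
      rw [Int.pow_dvd_pow_iff two_ne_zero] at h3
      obtain ⟨t, ht⟩ := h3
      refine ⟨t, ?_⟩
      rw [ht] at h2
      have h4 : y ^ 2 * (-D) = y ^ 2 * (t * t) := by linear_combination h2
      exact mul_left_cancel₀ (pow_ne_zero 2 hy0) h4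
  have hgA : g ≤ A := by
    have h1 : 1 ≤ |F1| := Int.one_le_abs hF10
    nlinarith
  have hD1 : 1 ≤ |D| := hDp
  obtain ⟨hAle, hCle⟩ := ACbd hg hD1 hA0' hgA hAC hBB hdis
  have hF1b : |F1| ≤ 2 * |D| := by
    have h1 : g * |F1| ≤ g * (2 * |D|) := by
      have e : g * (2 * |D|) = 2 * (g * |D|) := by ring
      rw [e]
      exact hF1A.trans hAle
    exact le_of_mul_le_mul_left h1 hg
  have hF3b : |F3| ≤ 2 * |D| := by
    have h1 : g * |F3| ≤ g * (2 * |D|) := by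
      have e : g * (2 * |D|) = 2 * (g * |D|) := by ring
      rw [e]
      exact hF3C.trans hCle
    exact le_of_mul_le_mul_left h1 hg
  have hF2b : |F2| ≤ 8 * |D| := by
    apply abs_le_of_sq_le_sq _ (by positivity)
    have h1 : F2 ^ 2 = F1 * F3 - D := by linarith
    have h2 : F1 * F3 ≤ |F1| * |F3| := by rw [← abs_mul]; exact le_abs_self _
    have h3 : |F1| * |F3| ≤ (2 * |D|) * (2 * |D|) :=
      mul_le_mul hF1b hF3b (abs_nonneg _) (by positivity)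
    have h4 : -D ≤ |D| := neg_le_abs D
    have h5 : |D| ≤ |D| * |D| := le_mul_of_one_le_left hDp.le hD1
    have e1 : (2 * |D|) * (2 * |D|) = 4 * (|D| * |D|) := by ring
    have e2 : (8 * |D|) ^ 2 = 64 * (|D| * |D|) := by ring
    have h6 : 0 < |D| * |D| := by positivity
    rw [h1, e2]
    rw [e1] at h3
    linarith
  -- the matrix `(w, -u; -y, x)`
  have hg2 : g ^ 2 = A * w ^ 2 + 2 * B * (w * (-y)) + C * (-y) ^ 2 := by
    rw [hAe, hB, hCe]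
    linear_combination (-(g ^ 2) * (x * w - y * u + 1)) * hdet
  have hn2 : n ^ 2 + |D| = A * (-u) ^ 2 + 2 * B * ((-u) * x) + C * x ^ 2 := by
    rw [hAe, hB, hCe]
    linear_combination (-(n ^ 2 + |D|) * (x * w - y * u + 1)) * hdet
  have hlow := qlow hA0' hBA hAC hgA
  have hup := qup (E := g * |D|) hA0' hBA hAle hCle
  have hc1 : w ^ 2 + y ^ 2 ≤ 2 * g := by
    have h1 := hlow w (-y)
    rw [← hg2] at h1
    have h2 : g * (w ^ 2 + (-y) ^ 2) ≤ g * (2 * g) := by linarith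
    have h3 := le_of_mul_le_mul_left h2 hg
    linarith
  have hc2 : g ≤ 3 * |D| * (w ^ 2 + y ^ 2) := by
    have h1 := hup w (-y)
    rw [← hg2] at h1
    have h2 : g * g ≤ g * (3 * |D| * (w ^ 2 + (-y) ^ 2)) := by
      have e : g * (3 * |D| * (w ^ 2 + (-y) ^ 2)) = 3 * (g * |D|) * (w ^ 2 + (-y) ^ 2) := by ring
      rw [e, ← sq]
      exact h1
    have h3 := le_of_mul_le_mul_left h2 hg
    linarith
  have hc3 : g * (u ^ 2 + x ^ 2) ≤ 2 * (n ^ 2 + |D|) := by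
    have h1 := hlow (-u) x
    rw [← hn2] at h1
    linarith
  -- the composition
  have hcmp : cmp (F1, F2, F3) (w, -u, -y, x) = (g, n, g') := by
    unfold cmp
    simp only
    refine Prod.ext ?_ (Prod.ext ?_ ?_)
    · simp only
      rw [hF1, hF2, hF3]
      linear_combination (g * (x * w - y * u + 1)) * hdet
    · simp only
      rw [hF1, hF2, hF3]
      linear_combination (n * (x * w - y * u + 1)) * hdet
    · simp only
      rw [hF1, hF2, hF3]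
      linear_combination (g' * (x * w - y * u + 1)) * hdet
  have hb8 : ∀ z : ℤ, |z| ≤ 2 * |D| → |z| ≤ 8 * |D| := fun z hz => by linarith
  rcases le_total |y| |w| with hyw | hyw
  · refine dec_key hg hD1 (F1, F2, F3) w (-u) (-y) x hFd (hb8 _ hF1b) hF2b (hb8 _ hF3b)
      (by linear_combination hdet) (by rw [abs_neg]; exact hyw) hcmp (by rw [neg_sq]; exact hc1)
      (by rw [neg_sq]; exact hc2) ?_
    rw [neg_sq]
    have : 0 ≤ g * x ^ 2 := by positivity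
    linarith
  · refine dec_key hg hD1 (F3, -F2, F1) y (-x) w (-u) (by linear_combination hFd) (hb8 _ hF3b)
      (by simp only; rw [abs_neg]; exact hF2b) (hb8 _ hF1b)
      (by linear_combination hdet) hyw ?_ (by linarith) (by linarith) ?_
    · rw [← hcmp]
      unfold cmp
      simp only
      refine Prod.ext ?_ (Prod.ext ?_ ?_) <;> simp only <;> ring
    · rw [neg_sq]
      have : 0 ≤ g * u ^ 2 := by positivity
      linarith

end Pool.Agent.AQ.MJ
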