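import Pool.Agent.Lib_helper88.EQQ.Dec
import Pool.Agent.Lib_helper39.PEQF.ED3
import Pool.Agent.Lib_helper39.PEQF.EF2
import Pool.Agent.Lib_helper39.PEQF.GB1
import Pool.Agent.Lib_helper96.AQC.CA4

/-!
# AQ (MP_892e4c_nt): the law of `F ∘ M` for every form `F` of determinant `D` (helper88)
-/

set_option autoImplicit false

namespace Pool.Agent.AQ.MJ

open Finset Pool.Agent.PENT Pool.Agent.PENT.EQ Pool.Agent.AQ.CV

theorem mul_cg {m : ℤ} {a b c d : ℤ} (h1 : m ∣ a - b) (h2 : m ∣ c - d) : m ∣ a * c - b * d := by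
  have e : a * c - b * d = (a - b) * c + b * (c - d) := by ring
  rw [e]
  exact dvd_add (h1.mul_right _) (h2.mul_left _)

theorem sq_cg {m : ℤ} {a b : ℤ} (h1 : m ∣ a - b) : m ∣ a ^ 2 - b ^ 2 := by
  have e : a ^ 2 - b ^ 2 = (a - b) * (a + b) := by ring
  rw [e]
  exact h1.mul_right _

/-- `F ∘ M` modulo `m` depends on `F` and `M` modulo `m` -/
theorem cmp_cg {m : ℤ} {F F' : ℤ × ℤ × ℤ} {g g' : ℤ × ℤ × ℤ × ℤ} (f1 : m ∣ F.1 - F'.1)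
    (f2 : m ∣ F.2.1 - F'.2.1) (f3 : m ∣ F.2.2 - F'.2.2) (h1 : m ∣ g.1 - g'.1)
    (h2 : m ∣ g.2.1 - g'.2.1) (h3 : m ∣ g.2.2.1 - g'.2.2.1) (h4 : m ∣ g.2.2.2 - g'.2.2.2) :
    m ∣ (cmp F g).1 - (cmp F' g').1 ∧ m ∣ (cmp F g).2.1 - (cmp F' g').2.1 ∧
      m ∣ (cmp F g).2.2 - (cmp F' g').2.2 := by
  unfold cmp
  simp only
  refine ⟨?_, ?_, ?_⟩
  · have k1 := mul_cg f1 (sq_cg h1)
    have k2 := mul_cg f2 (mul_cg h1 h3)
    have k3 := mul_cg f3 (sq_cg h3)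
    have e : F.1 * g.1 ^ 2 + 2 * F.2.1 * (g.1 * g.2.2.1) + F.2.2 * g.2.2.1 ^ 2 -
        (F'.1 * g'.1 ^ 2 + 2 * F'.2.1 * (g'.1 * g'.2.2.1) + F'.2.2 * g'.2.2.1 ^ 2) =
        (F.1 * g.1 ^ 2 - F'.1 * g'.1 ^ 2) + 2 * (F.2.1 * (g.1 * g.2.2.1) -
          F'.2.1 * (g'.1 * g'.2.2.1)) + (F.2.2 * g.2.2.1 ^ 2 - F'.2.2 * g'.2.2.1 ^ 2) := by ring
    rw [e]
    exact dvd_add (dvd_add k1 (k2.mul_left _)) k3
  · have k1 := mul_cg f1 (mul_cg h1 h2)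
    have k2 := mul_cg f2 (mul_cg h1 h4)
    have k3 := mul_cg f2 (mul_cg h2 h3)
    have k4 := mul_cg f3 (mul_cg h3 h4)
    have e : F.1 * (g.1 * g.2.1) + F.2.1 * (g.1 * g.2.2.2 + g.2.1 * g.2.2.1) +
        F.2.2 * (g.2.2.1 * g.2.2.2) - (F'.1 * (g'.1 * g'.2.1) + F'.2.1 * (g'.1 * g'.2.2.2 +
        g'.2.1 * g'.2.2.1) + F'.2.2 * (g'.2.2.1 * g'.2.2.2)) =
        (F.1 * (g.1 * g.2.1) - F'.1 * (g'.1 * g'.2.1)) + (F.2.1 * (g.1 * g.2.2.2) -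
          F'.2.1 * (g'.1 * g'.2.2.2)) + (F.2.1 * (g.2.1 * g.2.2.1) -
          F'.2.1 * (g'.2.1 * g'.2.2.1)) + (F.2.2 * (g.2.2.1 * g.2.2.2) -
          F'.2.2 * (g'.2.2.1 * g'.2.2.2)) := by ring
    rw [e]
    exact dvd_add (dvd_add (dvd_add k1 k2) k3) k4
  · have k1 := mul_cg f1 (sq_cg h2)
    have k2 := mul_cg f2 (mul_cg h2 h4)
    have k3 := mul_cg f3 (sq_cg h4)
    have e : F.1 * g.2.1 ^ 2 + 2 * F.2.1 * (g.2.1 * g.2.2.2) + F.2.2 * g.2.2.2 ^ 2 -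
        (F'.1 * g'.2.1 ^ 2 + 2 * F'.2.1 * (g'.2.1 * g'.2.2.2) + F'.2.2 * g'.2.2.2 ^ 2) =
        (F.1 * g.2.1 ^ 2 - F'.1 * g'.2.1 ^ 2) + 2 * (F.2.1 * (g.2.1 * g.2.2.2) -
          F'.2.1 * (g'.2.1 * g'.2.2.2)) + (F.2.2 * g.2.2.2 ^ 2 - F'.2.2 * g'.2.2.2 ^ 2) := by ring
    rw [e]
    exact dvd_add (dvd_add k1 (k2.mul_left _)) k3


/-- the forms modulo `m` of determinant `D` -/
noncomputable def VD (D : ℤ) (m : ℕ) : Finset (ℤ × ℤ × ℤ) :=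
  ((Ico (0 : ℤ) m) ×ˢ (Ico (0 : ℤ) m) ×ˢ (Ico (0 : ℤ) m)).filter
    (fun r => (m : ℤ) ∣ r.1 * r.2.2 - r.2.1 ^ 2 - D)

/-- the mean over the forms modulo `m` -/
noncomputable def mD (D : ℤ) (m : ℕ) (h : ℤ × ℤ × ℤ → ℝ) : ℝ :=
  (∑ r ∈ VD D m, h r) / ((VD D m).card : ℝ)

/-- functions of the class modulo `m` -/
def PerD (m : ℕ) (h : ℤ × ℤ × ℤ → ℝ) : Prop := ∀ r r' : ℤ × ℤ × ℤ, (m : ℤ) ∣ r.1 - r'.1 →
  (m : ℤ) ∣ r.2.1 - r'.2.1 → (m : ℤ) ∣ r.2.2 - r'.2.2 → h r = h r'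

theorem cmp_per (F : ℤ × ℤ × ℤ) (m : ℕ) (h : ℤ × ℤ × ℤ → ℝ) (hh : PerD m h) :
    Per m (fun g => h (cmp F g)) := by
  intro g g' h1 h2 h3 h4
  obtain ⟨k1, k2, k3⟩ := cmp_cg (F := F) (F' := F) (by simp) (by simp) (by simp) h1 h2 h3 h4
  exact hh _ _ k1 k2 k3

theorem cmp_per_prod (F : ℤ × ℤ × ℤ) (T : Finset ℕ) (M : ℕ) (hM : ∀ m ∈ T, m ∣ M)
    (h : ℕ → ℤ × ℤ × ℤ → ℝ) (hh : ∀ m ∈ T, PerD m (h m)) :
    Per M (fun g => ∏ m ∈ T, h m (cmp F g)) := by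
  intro g g' h1 h2 h3 h4
  refine Finset.prod_congr rfl fun m hm => ?_
  exact gb1_per_dvd m M (hM m hm) _ (cmp_per F m (h m) (hh m hm)) g g' h1 h2 h3 h4

theorem surjD {D : ℤ} (m : ℕ) [NeZero m] (ho : Odd m) (hD : IsCoprime D (m : ℤ))
    (v : ZMod m × ZMod m × ZMod m)
    (hv : v.1 * v.2.2 - v.2.1 ^ 2 = ((D : ℤ) : ZMod m)) :
    ∃ P : ZMod m × ZMod m × ZMod m × ZMod m,
      P.1 * P.2.2.2 - P.2.1 * P.2.2.1 = 1 ∧ cq ((D : ℤ) : ZMod m) P = v := by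
  obtain ⟨a, b, c⟩ := v
  simp only at hv
  have h1 : (m : ℤ) ∣ ((a.val : ℕ) : ℤ) * ((c.val : ℕ) : ℤ) - ((b.val : ℕ) : ℤ) ^ 2 - D := by
    rw [ga4_dvd]
    rw [Int.cast_sub, Int.cast_sub, Int.cast_mul, Int.cast_pow, ga4_val, ga4_val,
      ga4_val]
    linear_combination hv
  obtain ⟨α, β, γ, δ, k1, k2, k3, k4⟩ := form_surj m ho D _ _ _ hD h1
  rw [ga4_dvd] at k1 k2 k3 k4
  rw [Int.cast_sub, ga4_val] at k2 k3 k4
  push_cast at k1 k2 k3 k4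
  refine ⟨((α : ZMod m), (β : ZMod m), (γ : ZMod m), (δ : ZMod m)), ?_, ?_⟩
  · linear_combination k1
  · simp only [cq, Prod.mk.injEq]
    refine ⟨?_, ?_, ?_⟩
    · linear_combination k2
    · linear_combination k3
    · linear_combination k4

theorem mem_VD (D : ℤ) (m : ℕ) (v : ℤ × ℤ × ℤ) : v ∈ VD D m ↔
    ((0 ≤ v.1 ∧ v.1 < m) ∧ (0 ≤ v.2.1 ∧ v.2.1 < m) ∧ (0 ≤ v.2.2 ∧ v.2.2 < m)) ∧
      (m : ℤ) ∣ v.1 * v.2.2 - v.2.1 ^ 2 - D := by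
  unfold VD
  rw [Finset.mem_filter, Finset.mem_product, Finset.mem_product, Finset.mem_Ico, Finset.mem_Ico,
    Finset.mem_Ico]

theorem sumD (D : ℤ) (m : ℕ) [NeZero m] (h : ℤ × ℤ × ℤ → ℝ) :
    ∑ v ∈ VD D m, h v = ∑ w ∈ cV m ((D : ℤ) : ZMod m), ga4_H h w := by
  refine Finset.sum_nbij' (fun v => ((v.1 : ZMod m), (v.2.1 : ZMod m), (v.2.2 : ZMod m)))
    (fun w => (((w.1.val : ℕ) : ℤ), ((w.2.1.val : ℕ) : ℤ), ((w.2.2.val : ℕ) : ℤ)))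
    ?_ ?_ ?_ ?_ ?_
  · intro v hv
    rw [mem_VD] at hv
    rw [ca4_memV]
    have h1 := hv.2
    rw [ga4_dvd] at h1
    push_cast at h1
    linear_combination h1
  · intro w hw
    rw [ca4_memV] at hw
    rw [mem_VD]
    have hpos : ∀ z : ZMod m, (0 : ℤ) ≤ ((z.val : ℕ) : ℤ) ∧ ((z.val : ℕ) : ℤ) < m := by
      intro z
      exact ⟨Int.natCast_nonneg _, by exact_mod_cast ZMod.val_lt z⟩
    refine ⟨⟨hpos _, hpos _, hpos _⟩, ?_⟩
    rw [ga4_dvd]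
    rw [Int.cast_sub, Int.cast_sub, Int.cast_mul, Int.cast_pow, ga4_val, ga4_val,
      ga4_val]
    linear_combination hw
  · intro v hv
    rw [mem_VD] at hv
    obtain ⟨⟨h1, h2, h3⟩, _⟩ := hv
    refine Prod.ext ?_ (Prod.ext ?_ ?_)
    · exact ga4_valint m _ h1.1 h1.2
    · exact ga4_valint m _ h2.1 h2.2
    · exact ga4_valint m _ h3.1 h3.2
  · intro w _
    refine Prod.ext ?_ (Prod.ext ?_ ?_)
    · exact ga4_val m _
    · exact ga4_val m _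
    · exact ga4_val m _
  · intro v hv
    rw [mem_VD] at hv
    obtain ⟨⟨h1, h2, h3⟩, _⟩ := hv
    unfold ga4_H
    congr 1
    refine Prod.ext ?_ (Prod.ext ?_ ?_)
    · exact (ga4_valint m _ h1.1 h1.2).symm
    · exact (ga4_valint m _ h2.1 h2.2).symm
    · exact (ga4_valint m _ h3.1 h3.2).symm

/-- sums over `SLM m` of functions of the form -/
theorem sumSD {D : ℤ} (m : ℕ) [NeZero m] (ho : Odd m) (hD : IsCoprime D (m : ℤ))
    (H : ZMod m × ZMod m × ZMod m → ℝ) :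
    ∑ g ∈ SLM m, H (cq ((D : ℤ) : ZMod m) g) =
      (((SLM m).filter (fun g => cq ((D : ℤ) : ZMod m) g =
        (1, 0, ((D : ℤ) : ZMod m)))).card : ℝ) * ∑ w ∈ cV m ((D : ℤ) : ZMod m), H w := by
  rw [← Finset.sum_fiberwise_of_maps_to (ca4_maps m ((D : ℤ) : ZMod m))
    (fun g => H (cq ((D : ℤ) : ZMod m) g)), Finset.mul_sum]
  refine Finset.sum_congr rfl fun v hv => ?_
  have e1 : ∑ g ∈ (SLM m).filter (fun g => cq ((D : ℤ) : ZMod m) g = v),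
      H (cq ((D : ℤ) : ZMod m) g) =
      ∑ g ∈ (SLM m).filter (fun g => cq ((D : ℤ) : ZMod m) g = v), H v := by
    refine Finset.sum_congr rfl fun g hg => ?_
    rw [(Finset.mem_filter.1 hg).2]
  rw [e1, Finset.sum_const, nsmul_eq_mul]
  rw [ca4_memV] at hv
  obtain ⟨P, hP, hq⟩ := surjD m ho hD v hv
  have e2 := ca4_fib m ((D : ℤ) : ZMod m) P hP
  rw [hq] at e2
  rw [e2]

/-- **the law**: `F ∘ M` is uniform on the forms modulo `m` -/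
theorem EM_cmp {D : ℤ} {F : ℤ × ℤ × ℤ} (hF : F.1 * F.2.2 - F.2.1 ^ 2 = D) (m : ℕ) [NeZero m]
    (ho : Odd m) (hD : IsCoprime D (m : ℤ)) (h : ℤ × ℤ × ℤ → ℝ) (hh : PerD m h) :
    EM m (fun g => h (cmp F g)) = mD D m h := by
  obtain ⟨P, hP, hPF⟩ := surjD m ho hD ((F.1 : ZMod m), (F.2.1 : ZMod m), (F.2.2 : ZMod m)) (by
    have := congrArg (fun z : ℤ => (z : ZMod m)) hF
    push_cast at this
    exact this)
  have e0 : ∑ g ∈ SLM m, h (cmp F (lft g)) = ∑ g ∈ SLM m, ga4_H h (cq ((D : ℤ) : ZMod m) g) := by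
    refine Finset.sum_nbij' (fun g => ga4_m P g) (fun g => ga4_m (ga4_i P) g) ?_ ?_ ?_ ?_ ?_
    · intro g hg
      rw [ga4_memS] at hg ⊢
      simp only [ga4_m]
      linear_combination (P.1 * P.2.2.2 - P.2.1 * P.2.2.1) * hg + hP
    · intro g hg
      rw [ga4_memS] at hg ⊢
      simp only [ga4_m, ga4_i]
      linear_combination (P.1 * P.2.2.2 - P.2.1 * P.2.2.1) * hg + hP
    · intro g hg
      obtain ⟨a, b, c, d⟩ := g
      obtain ⟨α, β, γ, δ⟩ := P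
      simp only [ga4_m, ga4_i, Prod.mk.injEq] at hP ⊢
      refine ⟨?_, ?_, ?_, ?_⟩
      · linear_combination a * hP
      · linear_combination b * hP
      · linear_combination c * hP
      · linear_combination d * hP
    · intro g hg
      obtain ⟨a, b, c, d⟩ := g
      obtain ⟨α, β, γ, δ⟩ := P
      simp only [ga4_m, ga4_i, Prod.mk.injEq] at hP ⊢
      refine ⟨?_, ?_, ?_, ?_⟩
      · linear_combination a * hP
      · linear_combination b * hP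
      · linear_combination c * hP
      · linear_combination d * hP
    · intro g hg
      have hPF1 := congrArg Prod.fst hPF
      have hPF2 := congrArg (fun z => z.2.1) hPF
      have hPF3 := congrArg (fun z => z.2.2) hPF
      simp only [cq] at hPF1 hPF2 hPF3
      unfold ga4_H
      apply hh
      · rw [ga4_dvd, Int.cast_sub, ga4_val]
        simp only [cmp, lft, ga4_m, cq]
        push_cast
        simp only [ZMod.natCast_val, ZMod.cast_id', id_eq]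
        rw [← hPF1, ← hPF2, ← hPF3]
        ring
      · rw [ga4_dvd, Int.cast_sub, ga4_val]
        simp only [cmp, lft, ga4_m, cq]
        push_cast
        simp only [ZMod.natCast_val, ZMod.cast_id', id_eq]
        rw [← hPF1, ← hPF2, ← hPF3]
        ring
      · rw [ga4_dvd, Int.cast_sub, ga4_val]
        simp only [cmp, lft, ga4_m, cq]
        push_cast
        simp only [ZMod.natCast_val, ZMod.cast_id', id_eq]
        rw [← hPF1, ← hPF2, ← hPF3]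
        ring
  have e2 : ((SLM m).card : ℝ) =
      (((SLM m).filter (fun g => cq ((D : ℤ) : ZMod m) g =
        (1, 0, ((D : ℤ) : ZMod m)))).card : ℝ) * ((cV m ((D : ℤ) : ZMod m)).card : ℝ) := by
    have := sumSD m ho hD (fun _ => (1 : ℝ))
    simpa using this
  have e3 : ((VD D m).card : ℝ) = ((cV m ((D : ℤ) : ZMod m)).card : ℝ) := by
    have := sumD D m (fun _ => (1 : ℝ))
    simpa [ga4_H] using this
  have hk : (((SLM m).filter (fun g => cq ((D : ℤ) : ZMod m) g =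
        (1, 0, ((D : ℤ) : ZMod m)))).card : ℝ) ≠ 0 := by
    have hmem : ((1, 0, 0, 1) : ZMod m × ZMod m × ZMod m × ZMod m) ∈
        (SLM m).filter (fun g => cq ((D : ℤ) : ZMod m) g = (1, 0, ((D : ℤ) : ZMod m))) := by
      rw [Finset.mem_filter, ga4_memS]
      simp [cq]
    exact_mod_cast Finset.card_ne_zero.2 ⟨_, hmem⟩
  unfold EM mD
  rw [e0, sumSD m ho hD, e2, e3, sumD]
  exact mul_div_mul_left _ _ hk

/-- equidistribution of a family of forms of determinant `D` -/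
def EqD (D : ℤ) (O : Finset (ℤ × ℤ × ℤ)) (q : ℤ × ℤ × ℤ → ℤ × ℤ × ℤ) (L E : ℝ) : Prop :=
  ∀ T : Finset ℕ, (∀ m ∈ T, Odd m ∧ IsCoprime D (m : ℤ)) →
    (∀ m ∈ T, ∀ m' ∈ T, m ≠ m' → Nat.Coprime m m') →
    ((∏ m ∈ T, m : ℕ) : ℝ) ≤ L → ∀ h : ℕ → ℤ × ℤ × ℤ → ℝ, (∀ m ∈ T, PerD m (h m)) →
    (∀ m ∈ T, ∀ v, 0 ≤ h m v ∧ h m v ≤ 1) →
    |∑ t ∈ O, ∏ m ∈ T, h m (q t) - (O.card : ℝ) * ∏ m ∈ T, mD D m (h m)| ≤ E

theorem EM_cmp_prod {D : ℤ} {F : ℤ × ℤ × ℤ} (hF : F.1 * F.2.2 - F.2.1 ^ 2 = D) (T : Finset ℕ) :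
    (∀ m ∈ T, Odd m ∧ IsCoprime D (m : ℤ)) →
    (∀ m ∈ T, ∀ m' ∈ T, m ≠ m' → Nat.Coprime m m') → ∀ h : ℕ → ℤ × ℤ × ℤ → ℝ,
    (∀ m ∈ T, PerD m (h m)) → ∀ M : ℕ, M = ∏ m ∈ T, m → ∀ _ : NeZero M,
    EM M (fun g => ∏ m ∈ T, h m (cmp F g)) = ∏ m ∈ T, mD D m (h m) := by
  classical
  induction T using Finset.induction_on with
  | empty =>
    intro _ _ h _ M hM inst
    have hM1 : M = 1 := by rw [hM, Finset.prod_empty]
    subst hM1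
    simp only [Finset.prod_empty]
    unfold EM
    have hne : ((SLM 1).card : ℝ) ≠ 0 := by
      have h1 : (0 : ℕ) < (SLM 1).card := ed3_pos 1
      exact_mod_cast h1.ne'
    rw [Finset.sum_const, nsmul_eq_mul, mul_one]
    exact div_self hne
  | insert a T ha ih =>
    intro hodd hcop h hper M hM inst
    rw [Finset.prod_insert ha] at hM
    subst hM
    have ha0 := hodd a (mem_insert_self a T)
    have haz : NeZero a := ⟨ha0.1.pos.ne'⟩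
    have hMz : NeZero (∏ m ∈ T, m) := ⟨by
      intro h0
      exact inst.out (by rw [h0, mul_zero])⟩
    have hc : Nat.Coprime a (∏ m ∈ T, m) := by
      apply Nat.Coprime.prod_right
      intro m hm
      refine hcop a (mem_insert_self a T) m (mem_insert_of_mem hm) ?_
      rintro rfl
      exact ha hm
    have hPT : Per (∏ m ∈ T, m) (fun g => ∏ m ∈ T, h m (cmp F g)) :=
      cmp_per_prod F T _ (fun m hm => Finset.dvd_prod_of_mem _ hm) h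
        (fun m hm => hper m (mem_insert_of_mem hm))
    have hPa : Per a (fun g => h a (cmp F g)) := cmp_per F a (h a) (hper a (mem_insert_self a T))
    have e1 : (fun g : ℤ × ℤ × ℤ × ℤ => ∏ m ∈ insert a T, h m (cmp F g)) =
        fun g => (fun g => h a (cmp F g)) g * (fun g => ∏ m ∈ T, h m (cmp F g)) g := by
      funext g
      rw [Finset.prod_insert ha]
    rw [e1, EM_mul a (∏ m ∈ T, m) _ _ hPa hPT hc, Finset.prod_insert ha,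
      EM_cmp hF a ha0.1 ha0.2 (h a) (hper a (mem_insert_self a T)),
      ih (fun m hm => hodd m (mem_insert_of_mem hm))
        (fun m hm m' hm' => hcop m (mem_insert_of_mem hm) m' (mem_insert_of_mem hm')) h
        (fun m hm => hper m (mem_insert_of_mem hm)) _ rfl hMz]

/-- the box of one form: equidistribution of `F ∘ M` -/
theorem eq_cmp (D : ℤ) : ∃ c X₀ : ℝ, 0 < c ∧ c ≤ 1 / 100 ∧ 2 ≤ X₀ ∧ ∀ X : ℝ, X₀ ≤ X →
    ∀ F : ℤ × ℤ × ℤ, F.1 * F.2.2 - F.2.1 ^ 2 = D → ∀ (A₁ A₂ : ℕ) (B₁ B₂ C₁ C₂ : ℤ),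
    X ^ (1 / 2 - c) ≤ A₁ → A₁ ≤ A₂ → (A₂ : ℝ) ≤ X ^ (1 / 2 + c) → B₁ ≤ B₂ →
    (B₂ : ℝ) - B₁ ≤ X ^ (1 / 2 + c) → C₁ ≤ C₂ → (C₂ : ℝ) - C₁ ≤ X ^ (1 / 2 + c) →
      EqD D (EBox A₁ A₂ B₁ B₂ C₁ C₂) (fun t => cmp F (emat t)) (X ^ c) (X ^ (1 - c)) := by
  obtain ⟨c, X₀, hc, hc1, hX0, H⟩ := eq_mean
  refine ⟨c, X₀, hc, hc1, hX0, ?_⟩
  intro X hX F hF A₁ A₂ B₁ B₂ C₁ C₂ h1 h2 h3 h4 h5 h6 h7 T hodd hcop hD h hper h01
  have hMz : NeZero (∏ m ∈ T, m) := ⟨by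
    rw [Finset.prod_ne_zero_iff]
    exact fun m hm => (hodd m hm).1.pos.ne'⟩
  have hPT : Per (∏ m ∈ T, m) (fun g => ∏ m ∈ T, h m (cmp F g)) :=
    cmp_per_prod F T _ (fun m hm => Finset.dvd_prod_of_mem _ hm) h hper
  have hF01 : ∀ g : ℤ × ℤ × ℤ × ℤ, 0 ≤ ∏ m ∈ T, h m (cmp F g) ∧ ∏ m ∈ T, h m (cmp F g) ≤ 1 := by
    intro g
    exact ⟨Finset.prod_nonneg fun m hm => (h01 m hm _).1,
      Finset.prod_le_one (fun m hm => (h01 m hm _).1) (fun m hm => (h01 m hm _).2)⟩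
  have h8 := H X hX (∏ m ∈ T, m) hMz hD A₁ A₂ B₁ B₂ C₁ C₂ h1 h2 h3 h4 h5 h6 h7
    (fun g => ∏ m ∈ T, h m (cmp F g)) hPT hF01
  rw [EM_cmp_prod hF T hodd hcop h hper _ rfl hMz] at h8
  exact h8

end Pool.Agent.AQ.MJ
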