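import Pool.Agent.Lib_helper88.EQQ.Law
import Pool.Agent.Lib_helper39.PEQF.GB2

/-!
# AQ (MP_892e4c_nt): a majorant family for all forms of determinant `D` (helper88)
-/

set_option autoImplicit false

namespace Pool.Agent.AQ.MJ

open Finset Filter Pool.Agent.PENT.EQ

/-- two families -/
theorem comb2 (O₁ O₂ : Finset (ℤ × ℤ × ℤ)) (f₁ f₂ : ℤ × ℤ × ℤ → ℤ × ℤ × ℤ) :
    ∃ (O : Finset (ℤ × ℤ × ℤ)) (f : ℤ × ℤ × ℤ → ℤ × ℤ × ℤ),
      (∀ t ∈ O₁, ∃ s ∈ O, f s = f₁ t) ∧ (∀ t ∈ O₂, ∃ s ∈ O, f s = f₂ t) ∧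
      ∀ G : ℤ × ℤ × ℤ → ℝ, ∑ s ∈ O, G (f s) = ∑ t ∈ O₁, G (f₁ t) + ∑ t ∈ O₂, G (f₂ t) := by
  classical
  set e₁ : ℤ × ℤ × ℤ → ℤ × ℤ × ℤ := fun t => (2 * t.1, t.2) with he₁
  set e₂ : ℤ × ℤ × ℤ → ℤ × ℤ × ℤ := fun t => (2 * t.1 + 1, t.2) with he₂
  set f : ℤ × ℤ × ℤ → ℤ × ℤ × ℤ := fun s =>
    if s.1 % 2 = 0 then f₁ (s.1 / 2, s.2) else f₂ (s.1 / 2, s.2) with hf
  have h1 : ∀ t, f (e₁ t) = f₁ t := by
    intro t
    rw [hf, he₁]
    simp only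
    have a1 : 2 * t.1 % 2 = 0 := by omega
    have a2 : 2 * t.1 / 2 = t.1 := by omega
    rw [if_pos a1, a2]
  have h2 : ∀ t, f (e₂ t) = f₂ t := by
    intro t
    rw [hf, he₂]
    simp only
    have a1 : ¬ (2 * t.1 + 1) % 2 = 0 := by omega
    have a2 : (2 * t.1 + 1) / 2 = t.1 := by omega
    rw [if_neg a1, a2]
  have i1 : Function.Injective e₁ := by
    intro t t' h
    rw [he₁] at h
    simp only [Prod.mk.injEq] at h
    exact Prod.ext (by omega) h.2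
  have i2 : Function.Injective e₂ := by
    intro t t' h
    rw [he₂] at h
    simp only [Prod.mk.injEq] at h
    exact Prod.ext (by omega) h.2
  have hdis : Disjoint (O₁.image e₁) (O₂.image e₂) := by
    rw [Finset.disjoint_left]
    intro s hs hs'
    obtain ⟨t, _, ht⟩ := mem_image.1 hs
    obtain ⟨t', _, ht'⟩ := mem_image.1 hs'
    rw [← ht'] at ht
    have := congrArg Prod.fst ht
    rw [he₁, he₂] at this
    simp only at this
    omega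
  refine ⟨O₁.image e₁ ∪ O₂.image e₂, f, ?_, ?_, ?_⟩
  · intro t ht
    exact ⟨e₁ t, mem_union_left _ (mem_image_of_mem _ ht), h1 t⟩
  · intro t ht
    exact ⟨e₂ t, mem_union_right _ (mem_image_of_mem _ ht), h2 t⟩
  · intro G
    rw [sum_union hdis, sum_image (fun a _ b _ h => i1 h), sum_image (fun a _ b _ h => i2 h)]
    simp only [h1, h2]

/-- finitely many families -/
theorem combI {ι : Type} [DecidableEq ι] (I : Finset ι) (O : ι → Finset (ℤ × ℤ × ℤ))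
    (f : ι → ℤ × ℤ × ℤ → ℤ × ℤ × ℤ) :
    ∃ (O' : Finset (ℤ × ℤ × ℤ)) (f' : ℤ × ℤ × ℤ → ℤ × ℤ × ℤ),
      (∀ i ∈ I, ∀ t ∈ O i, ∃ s ∈ O', f' s = f i t) ∧
      ∀ G : ℤ × ℤ × ℤ → ℝ, ∑ s ∈ O', G (f' s) = ∑ i ∈ I, ∑ t ∈ O i, G (f i t) := by
  induction I using Finset.induction_on with
  | empty => exact ⟨∅, id, by simp, by simp⟩
  | insert a I ha ih =>
    obtain ⟨O₁, f₁, h1, h2⟩ := ih
    obtain ⟨O', f', k1, k2, k3⟩ := comb2 (O a) O₁ (f a) f₁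
    refine ⟨O', f', ?_, ?_⟩
    · intro i hi t ht
      rcases mem_insert.1 hi with rfl | hi
      · exact k1 t ht
      · obtain ⟨s, hs, hs'⟩ := h1 i hi t ht
        obtain ⟨r, hr, hr'⟩ := k2 s hs
        exact ⟨r, hr, hr'.trans hs'⟩
    · intro G
      rw [k3, h2, sum_insert ha]

/-- the numerical part -/
theorem num (Q c c1 : ℝ) (hc : 0 < c) (hc0 : c ≤ 1 / 100) (hc1 : 4 * c ≤ c1) : ∃ X₀ : ℝ, 2 ≤ X₀ ∧
    ∀ X : ℝ, X₀ ≤ X → Q * X ^ (1 / 2 + c / 2) ≤ X ^ (1 / 2 + c1) ∧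
      X ^ (1 / 2 - c1) * Q ≤ X ^ (1 / 2 - c / 2) ∧ Q ≤ X ^ (1 / 2 - c / 2) ∧
      Q * X ^ (1 - c1) ≤ X ^ (1 - c) := by
  have t1 := (tendsto_rpow_atTop (y := c1 - c / 2) (by linarith)).eventually_ge_atTop Q
  have t2 := (tendsto_rpow_atTop (y := 1 / 2 - c / 2) (by linarith)).eventually_ge_atTop Q
  have t3 := (tendsto_rpow_atTop (y := c1 - c) (by linarith)).eventually_ge_atTop Q
  obtain ⟨X₁, hX₁⟩ := eventually_atTop.1 ((t1.and t2).and t3)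
  refine ⟨max X₁ 2, le_max_right _ _, fun X hX => ?_⟩
  have hX2 : 2 ≤ X := le_trans (le_max_right _ _) hX
  have hX0 : 0 < X := by linarith
  obtain ⟨⟨h1, h2⟩, h3⟩ := hX₁ X (le_trans (le_max_left _ _) hX)
  refine ⟨?_, ?_, h2, ?_⟩
  · have e : X ^ (1 / 2 + c1) = X ^ (c1 - c / 2) * X ^ (1 / 2 + c / 2) := by
      rw [← Real.rpow_add hX0]
      congr 1
      ring
    rw [e]
    exact mul_le_mul_of_nonneg_right h1 (Real.rpow_nonneg hX0.le _)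
  · have e : X ^ (1 / 2 - c / 2) = X ^ (1 / 2 - c1) * X ^ (c1 - c / 2) := by
      rw [← Real.rpow_add hX0]
      congr 1
      ring
    rw [e]
    exact mul_le_mul_of_nonneg_left h1 (Real.rpow_nonneg hX0.le _)
  · have e : X ^ (1 - c) = X ^ (c1 - c) * X ^ (1 - c1) := by
      rw [← Real.rpow_add hX0]
      congr 1
      ring
    rw [e]
    exact mul_le_mul_of_nonneg_right h3 (Real.rpow_nonneg hX0.le _)

/-- the dyadic interval -/
theorem dyad {r : ℝ} (hr : 0 ≤ r) {α : ℕ} (h1 : r < α) {I : ℕ} (h2 : (α : ℝ) ≤ 2 ^ I * r) :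
    ∃ i < I, ⌊(2 : ℝ) ^ i * r⌋₊ < α ∧ α ≤ ⌊(2 : ℝ) ^ (i + 1) * r⌋₊ := by
  induction I with
  | zero =>
    exfalso
    rw [pow_zero, one_mul] at h2
    linarith
  | succ I ih =>
    by_cases h3 : (α : ℝ) ≤ 2 ^ I * r
    · obtain ⟨i, hi, h⟩ := ih h3
      exact ⟨i, by omega, h⟩
    · refine ⟨I, by omega, ?_, Nat.le_floor h2⟩
      rw [Nat.floor_lt (by positivity)]
      linarith

theorem beta_bd {g b n K C a G : ℝ} (hG : 0 < G) (hK : 1 ≤ K) (ha : 0 ≤ a) (hC : 1 ≤ C)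
    (hg : G ≤ g) (hn : |n| ≤ C) (h : g * b ^ 2 ≤ K * (n ^ 2 + a)) :
    b ^ 2 * G ≤ (K * (C + a)) ^ 2 := by
  have hK0 : 0 < K := by linarith
  have hn2 : n ^ 2 ≤ C ^ 2 := by
    rw [← sq_abs n]
    exact pow_le_pow_left₀ (abs_nonneg _) hn 2
  have h5 : b ^ 2 * G ≤ b ^ 2 * g := mul_le_mul_of_nonneg_left hg (sq_nonneg _)
  have h55 : a ≤ C * a := le_mul_of_one_le_left ha hC
  have h56 : 0 ≤ C * a := ha.trans h55
  have h6 : n ^ 2 + a ≤ (C + a) ^ 2 := by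
    have e : (C + a) ^ 2 = C ^ 2 + 2 * (C * a) + a ^ 2 := by ring
    rw [e]
    linarith [sq_nonneg a]
  have h7 : K * (n ^ 2 + a) ≤ K * (C + a) ^ 2 := mul_le_mul_of_nonneg_left h6 hK0.le
  have hKK : K ≤ K ^ 2 := by nlinarith
  have h8 : K * (C + a) ^ 2 ≤ (K * (C + a)) ^ 2 := by
    rw [mul_pow]
    exact mul_le_mul_of_nonneg_right hKK (sq_nonneg _)
  have e2 : b ^ 2 * g = g * b ^ 2 := mul_comm _ _
  linarith

/-- **the majorant family** for the forms of determinant `D` -/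
theorem majD (D : ℤ) (hD : ¬ IsSquare (-D)) : ∃ c : ℝ, 0 < c ∧ c ≤ 1 / 100 ∧ ∀ C₄ : ℝ, 1 ≤ C₄ →
    ∃ C X₀ : ℝ, 0 < C ∧ 2 ≤ X₀ ∧ ∀ X : ℝ, X₀ ≤ X → ∀ G : ℝ, X ^ (1 - c) ≤ G → G ≤ X ^ (1 + c) →
    ∃ (O : Finset (ℤ × ℤ × ℤ)) (f : ℤ × ℤ × ℤ → ℤ × ℤ × ℤ),
      (∀ R : ℤ × ℤ × ℤ, R.1 * R.2.2 - R.2.1 ^ 2 = D → G < (R.1 : ℝ) → (R.1 : ℝ) ≤ 2 * G →
        |(R.2.1 : ℝ)| ≤ C₄ * X → ∃ o ∈ O, f o = R) ∧
      ((O.card : ℝ) ≤ C * X) ∧ EqD D O f (X ^ c) (X ^ (1 - c)) := by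
  classical
  obtain ⟨c1, X1, hc1, hc1', hX1, H1⟩ := eq_cmp D
  obtain ⟨c2, X2, hc2, hc2', hX2, H2⟩ := box_upper
  obtain ⟨K, hK, hdec⟩ := dec D hD
  obtain ⟨c, hcdef⟩ : ∃ c : ℝ, c = min c1 c2 / 4 := ⟨_, rfl⟩
  have hmin : 0 < min c1 c2 := lt_min hc1 hc2
  have hc0 : 0 < c := by rw [hcdef]; linarith
  have hcc1 : 4 * c ≤ c1 := by
    have := min_le_left c1 c2
    rw [hcdef]; linarith
  have hcc2 : 4 * c ≤ c2 := by
    have := min_le_right c1 c2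
    rw [hcdef]; linarith
  have hc100 : c ≤ 1 / 100 := by linarith
  refine ⟨c, hc0, hc100, ?_⟩
  intro C₄ hC
  have hKR : (1 : ℝ) ≤ K := by exact_mod_cast hK
  have hK0 : (0 : ℝ) < K := by linarith
  set I : ℕ := 2 * K with hI
  have hIK : (2 : ℝ) * K ≤ 2 ^ I := by
    have : 2 * K < 2 ^ (2 * K) := Nat.lt_two_pow_self
    have h2 : ((2 * K : ℕ) : ℝ) < ((2 ^ (2 * K) : ℕ) : ℝ) := by exact_mod_cast this
    push_cast at h2
    exact h2.le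
  set Fs : Finset (ℤ × ℤ × ℤ) := ((Icc (-(K : ℤ)) K) ×ˢ (Icc (-(K : ℤ)) K) ×ˢ
    (Icc (-(K : ℤ)) K)).filter (fun F => F.1 * F.2.2 - F.2.1 ^ 2 = D) with hFs
  set J : Finset ((ℤ × ℤ × ℤ) × ℕ) := Fs ×ˢ range I with hJ
  -- the constants
  have hDa : (0 : ℝ) ≤ |(D : ℝ)| := abs_nonneg _
  set E : ℝ := 3 * (K * (C₄ + |(D : ℝ)|)) with hE
  have hE0 : 3 ≤ E := by
    have : (1 : ℝ) ≤ K * (C₄ + |(D : ℝ)|) := by
      have h1 : (1 : ℝ) ≤ C₄ + |(D : ℝ)| := by linarith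
      exact one_le_mul_of_one_le_of_one_le hKR h1
    rw [hE]; linarith
  set W : ℝ := 3 * 2 ^ I with hW
  have hW0 : 3 ≤ W := by
    have : (1 : ℝ) ≤ 2 ^ I := one_le_pow₀ (by norm_num)
    rw [hW]; linarith
  set Q : ℝ := E + W + 4 * K + J.card with hQ
  have hJ0 : (0 : ℝ) ≤ J.card := Nat.cast_nonneg _
  obtain ⟨Y1, hY1, K1⟩ := num Q c c1 hc0 hc100 hcc1
  obtain ⟨Y2, hY2, K2⟩ := num Q c c2 hc0 hc100 hcc2
  refine ⟨(J.card + 1) * (2 * E * W + 1), max (max X1 X2) (max Y1 Y2), by positivity,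
    le_trans hX1 (le_trans (le_max_left _ _) (le_max_left _ _)), ?_⟩
  intro X hX G hG1 hG2
  have hXX1 : X1 ≤ X := le_trans (le_trans (le_max_left _ _) (le_max_left _ _)) hX
  have hXX2 : X2 ≤ X := le_trans (le_trans (le_max_right _ _) (le_max_left _ _)) hX
  have hXY1 : Y1 ≤ X := le_trans (le_trans (le_max_left _ _) (le_max_right _ _)) hX
  have hXY2 : Y2 ≤ X := le_trans (le_trans (le_max_right _ _) (le_max_right _ _)) hX
  obtain ⟨a1, a2, a3, a4⟩ := K1 X hXY1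
  obtain ⟨b1, b2, b3, b4⟩ := K2 X hXY2
  have hX2' : 2 ≤ X := le_trans hX1 hXX1
  have hX0 : 0 < X := by linarith
  have hX1' : 1 ≤ X := by linarith
  have hG0 : 0 < G := lt_of_lt_of_le (Real.rpow_pos_of_pos hX0 _) hG1
  -- the square root
  obtain ⟨s, hs⟩ : ∃ s : ℝ, s = √G := ⟨_, rfl⟩
  have hs0 : 0 ≤ s := by rw [hs]; exact Real.sqrt_nonneg _
  have hs2 : s ^ 2 = G := by rw [hs]; exact Real.sq_sqrt hG0.le
  obtain ⟨P, hP⟩ : ∃ P : ℝ, P = X ^ (1 / 2 - c / 2) := ⟨_, rfl⟩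
  obtain ⟨U, hU⟩ : ∃ U : ℝ, U = X ^ (1 / 2 + c / 2) := ⟨_, rfl⟩
  have hP2 : P ^ 2 = X ^ (1 - c) := by
    rw [hP, pow_two, ← Real.rpow_add hX0]
    congr 1
    ring
  have hU2 : U ^ 2 = X ^ (1 + c) := by
    rw [hU, pow_two, ← Real.rpow_add hX0]
    congr 1
    ring
  have hPU : P * U = X := by
    rw [hP, hU, ← Real.rpow_add hX0]
    have : (1 / 2 - c / 2 + (1 / 2 + c / 2) : ℝ) = 1 := by ring
    rw [this, Real.rpow_one]
  have hP0 : 0 < P := by rw [hP]; exact Real.rpow_pos_of_pos hX0 _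
  have hU0 : 0 < U := by rw [hU]; exact Real.rpow_pos_of_pos hX0 _
  rw [← hU] at a1 b1
  rw [← hP] at a2 a3 b2 b3
  have hPs : P ≤ s := by
    apply le_of_sq_le_sq _ hs0
    rw [hP2, hs2]
    exact hG1
  have hsU : s ≤ U := by
    apply le_of_sq_le_sq _ hU0.le
    rw [hU2, hs2]
    exact hG2
  have hQs : Q ≤ s := le_trans a3 hPs
  have hspos : 0 < s := by linarith
  have hUX : U ≤ X := by
    rw [hU]
    calc X ^ (1 / 2 + c / 2) ≤ X ^ (1 : ℝ) := Real.rpow_le_rpow_of_exponent_le hX1' (by linarith)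
      _ = X := Real.rpow_one X
  have hXs : X / s ≤ U := by
    rw [div_le_iff₀ hspos]
    calc X = P * U := hPU.symm
      _ ≤ s * U := mul_le_mul_of_nonneg_right hPs hU0.le
      _ = U * s := mul_comm _ _
  have hXs1 : 1 ≤ X / s := by
    rw [le_div_iff₀ hspos, one_mul]
    exact hsU.trans hUX
  -- `r = √(G / K)`
  obtain ⟨r, hr⟩ : ∃ r : ℝ, r = √(G / K) := ⟨_, rfl⟩
  have hr0 : 0 ≤ r := by rw [hr]; exact Real.sqrt_nonneg _
  have hr2 : r ^ 2 = G / K := by rw [hr]; exact Real.sq_sqrt (by positivity)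
  have hrK : s ≤ K * r := by
    apply le_of_sq_le_sq _ (by positivity)
    rw [hs2, mul_pow, hr2]
    have : (K : ℝ) ^ 2 * (G / K) = K * G := by field_simp
    rw [this]
    exact le_mul_of_one_le_left hG0.le hKR
  have hrs : r ≤ s := by
    apply le_of_sq_le_sq _ hs0
    rw [hr2, hs2]
    exact div_le_self hG0.le hKR
  have hr4 : 4 ≤ r := by
    have h1 : 4 * (K : ℝ) ≤ s := by
      refine le_trans ?_ hQs
      rw [hQ]; linarith
    have h2 : (K : ℝ) * 4 ≤ K * r := by linarith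
    exact le_of_mul_le_mul_left h2 hK0
  -- the sides
  obtain ⟨Rb, hRb⟩ : ∃ Rb : ℝ, Rb = K * (C₄ * X + |(D : ℝ)|) / s := ⟨_, rfl⟩
  have hRb0 : 0 ≤ Rb := by rw [hRb]; positivity
  obtain ⟨Rc, hRc⟩ : ∃ Rc : ℝ, Rc = 2 ^ I * r := ⟨_, rfl⟩
  have hRc0 : 0 ≤ Rc := by rw [hRc]; positivity
  have hBlen : ((⌊Rb⌋ : ℤ) : ℝ) - ((-⌊Rb⌋ - 1 : ℤ) : ℝ) ≤ E * (X / s) := by
    have h1 : ((⌊Rb⌋ : ℤ) : ℝ) ≤ Rb := Int.floor_le Rb
    push_cast
    have h2 : Rb ≤ K * (C₄ + |(D : ℝ)|) * (X / s) := by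
      rw [hRb, mul_div_assoc']
      apply div_le_div_of_nonneg_right _ hs0
      rw [mul_assoc]
      have h3 : |(D : ℝ)| ≤ |(D : ℝ)| * X := le_mul_of_one_le_right hDa hX1'
      have h4 : C₄ * X + |(D : ℝ)| ≤ (C₄ + |(D : ℝ)|) * X := by linarith
      exact mul_le_mul_of_nonneg_left h4 hK0.le
    have h5 : 1 ≤ K * (C₄ + |(D : ℝ)|) * (X / s) := by
      have h6 : (1 : ℝ) ≤ K * (C₄ + |(D : ℝ)|) := by rw [hE] at hE0; linarith
      exact one_le_mul_of_one_le_of_one_le h6 hXs1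
    rw [hE]
    linarith
  have hClen : ((⌊Rc⌋ : ℤ) : ℝ) - ((-⌊Rc⌋ - 1 : ℤ) : ℝ) ≤ W * s := by
    have h1 : ((⌊Rc⌋ : ℤ) : ℝ) ≤ Rc := Int.floor_le Rc
    push_cast
    have h2 : Rc ≤ 2 ^ I * s := by rw [hRc]; exact mul_le_mul_of_nonneg_left hrs (by positivity)
    have h3 : 1 ≤ 2 ^ I * s := by
      have h4 : (1 : ℝ) ≤ 2 ^ I := one_le_pow₀ (by norm_num)
      have h5 : 1 ≤ s := by linarith
      exact one_le_mul_of_one_le_of_one_le h4 h5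
    rw [hW]
    linarith
  have hfb0 : (0 : ℤ) ≤ ⌊Rb⌋ := Int.floor_nonneg.2 hRb0
  have hfc0 : (0 : ℤ) ≤ ⌊Rc⌋ := Int.floor_nonneg.2 hRc0
  have hEU : E * (X / s) ≤ Q * U := by
    apply mul_le_mul _ hXs (by positivity) (by positivity)
    rw [hQ]; linarith
  have hWU : W * s ≤ Q * U := by
    apply mul_le_mul _ hsU hs0 (by positivity)
    rw [hQ]; linarith
  set A : ℕ → ℕ := fun i => ⌊(2 : ℝ) ^ i * r⌋₊ with hA
  set Ob : (ℤ × ℤ × ℤ) × ℕ → Finset (ℤ × ℤ × ℤ) := fun j =>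
    EBox (A j.2) (A (j.2 + 1)) (-⌊Rb⌋ - 1) ⌊Rb⌋ (-⌊Rc⌋ - 1) ⌊Rc⌋ with hOb
  set fb : (ℤ × ℤ × ℤ) × ℕ → ℤ × ℤ × ℤ → ℤ × ℤ × ℤ := fun j t => cmp j.1 (emat t) with hfb
  obtain ⟨O, f, hcov, hsum⟩ := combI J Ob fb
  -- facts on `A`
  have hAr : ∀ i, (2 : ℝ) ^ i * r < A i + 1 := fun i => Nat.lt_floor_add_one _
  have hAle : ∀ i, (A i : ℝ) ≤ 2 ^ i * r := fun i => Nat.floor_le (by positivity)
  have hp1 : ∀ i : ℕ, (1 : ℝ) ≤ 2 ^ i := fun i => one_le_pow₀ (by norm_num)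
  have hA3 : ∀ i, 3 ≤ A i := by
    intro i
    rw [hA]
    apply Nat.le_floor
    have := le_mul_of_one_le_left hr0 (hp1 i)
    push_cast
    linarith
  have hA1 : ∀ i, X ^ (1 / 2 - c1) ≤ A i ∧ X ^ (1 / 2 - c2) ≤ A i := by
    intro i
    have h1 : s ≤ (2 * K) * A i := by
      have h2 : r ≤ 2 ^ i * r := le_mul_of_one_le_left hr0 (hp1 i)
      have h3 := hAr i
      have h4 : (3 : ℝ) ≤ A i := by exact_mod_cast hA3 i
      have h5 : r ≤ 2 * A i := by linarith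
      calc s ≤ K * r := hrK
        _ ≤ K * (2 * A i) := mul_le_mul_of_nonneg_left h5 hK0.le
        _ = (2 * K) * A i := by ring
    have h6 : ∀ y : ℝ, 0 ≤ y → y * Q ≤ P → y ≤ A i := by
      intro y hy hyQ
      have h7 : y * (2 * K) ≤ (2 * K) * A i := by
        have h8 : y * (2 * K) ≤ y * Q := mul_le_mul_of_nonneg_left (by rw [hQ]; linarith) hy
        linarith
      have h9 : (2 * (K : ℝ)) * y ≤ (2 * K) * A i := by linarith
      exact le_of_mul_le_mul_left h9 (by positivity)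
    exact ⟨h6 _ (Real.rpow_nonneg hX0.le _) a2, h6 _ (Real.rpow_nonneg hX0.le _) b2⟩
  have hA4 : ∀ i, A (i + 1) ≤ 4 * A i := by
    intro i
    have h1 : (A (i + 1) : ℝ) ≤ 2 ^ (i + 1) * r := hAle (i + 1)
    have h2 := hAr i
    have h3 : (3 : ℝ) ≤ A i := by exact_mod_cast hA3 i
    have h4 : (2 : ℝ) ^ (i + 1) * r = 2 * (2 ^ i * r) := by ring
    have h5 : (A (i + 1) : ℝ) ≤ 4 * A i := by linarith
    exact_mod_cast h5
  have hA12 : ∀ i, A i ≤ A (i + 1) := by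
    intro i
    rw [hA]
    apply Nat.floor_le_floor
    have h4 : (2 : ℝ) ^ (i + 1) * r = 2 * (2 ^ i * r) := by ring
    have h5 : 0 ≤ (2 : ℝ) ^ i * r := by positivity
    linarith
  have hAU : ∀ i < I, (A (i + 1) : ℝ) ≤ Q * U := by
    intro i hi
    have h1 : (2 : ℝ) ^ (i + 1) ≤ 2 ^ I := pow_le_pow_right₀ (by norm_num) (by omega)
    have h2 : (2 : ℝ) ^ (i + 1) * r ≤ 2 ^ I * s := mul_le_mul h1 hrs hr0 (by positivity)
    have h3 : (2 : ℝ) ^ I * s ≤ W * s := mul_le_mul_of_nonneg_right (by rw [hW]; linarith [hp1 I]) hs0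
    linarith [hAle (i + 1)]
  refine ⟨O, f, ?_, ?_, ?_⟩
  · -- the covering
    intro q hq hg1 hg2 hn
    obtain ⟨g, n, g'⟩ := q
    simp only at hq hg1 hg2 hn
    have hgpos : 0 < g := by
      have h1 : (0 : ℝ) < g := lt_trans hG0 hg1
      exact_mod_cast h1
    obtain ⟨F, α, β, γ, δ, k1, k2, k3, k4, k5, k6, k7, k8, k9, k10, k11⟩ := hdec g n g' hgpos hq
    have hFm : F ∈ Fs := by
      rw [hFs, mem_filter, mem_product, mem_product, mem_Icc, mem_Icc, mem_Icc]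
      exact ⟨⟨abs_le.1 k2, abs_le.1 k3, abs_le.1 k4⟩, k1⟩
    have hαR : (0 : ℝ) < α := by exact_mod_cast k6
    have k9R : (g : ℝ) ≤ K * (α : ℝ) ^ 2 := by exact_mod_cast k9
    have k10R : (α : ℝ) ^ 2 ≤ K * (g : ℝ) := by exact_mod_cast k10
    have k11R : (g : ℝ) * (β : ℝ) ^ 2 ≤ K * ((n : ℝ) ^ 2 + |(D : ℝ)|) := by exact_mod_cast k11
    have hαn : ((α.toNat : ℕ) : ℤ) = α := Int.toNat_of_nonneg k6.le
    have hαnR : ((α.toNat : ℕ) : ℝ) = α := by exact_mod_cast hαn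
    have hlow : r < (α.toNat : ℕ) := by
      rw [hαnR]
      apply lt_of_pow_lt_pow_left₀ 2 hαR.le
      rw [hr2, div_lt_iff₀ hK0]
      linarith
    have hupp : ((α.toNat : ℕ) : ℝ) ≤ 2 ^ I * r := by
      rw [hαnR]
      apply le_of_sq_le_sq _ (by positivity)
      rw [mul_pow, hr2]
      have h1 : (2 * (K : ℝ)) ^ 2 ≤ ((2 : ℝ) ^ I) ^ 2 := pow_le_pow_left₀ (by positivity) hIK 2
      have h2 : (2 * (K : ℝ)) ^ 2 * (G / K) ≤ ((2 : ℝ) ^ I) ^ 2 * (G / K) :=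
        mul_le_mul_of_nonneg_right h1 (by positivity)
      have h3 : (2 * (K : ℝ)) ^ 2 * (G / K) = 4 * (K * G) := by field_simp; ring
      have h4 : (K : ℝ) * g ≤ K * (2 * G) := mul_le_mul_of_nonneg_left hg2 hK0.le
      have h5 : 0 ≤ (K : ℝ) * G := by positivity
      rw [h3] at h2
      linarith
    obtain ⟨i, hi, hi1, hi2⟩ := dyad hr0 hlow hupp
    have hj : ((F, i) : (ℤ × ℤ × ℤ) × ℕ) ∈ J := by
      rw [hJ, mem_product, mem_range]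
      exact ⟨hFm, hi⟩
    have hdd : (β * γ + 1) / α = δ := by
      have h2 : β * γ + 1 = α * δ := by linarith
      rw [h2]
      exact Int.mul_ediv_cancel_left δ k6.ne'
    have hem : emat (α, β, γ) = (α, β, γ, δ) := by
      unfold emat
      simp only [hdd]
    obtain ⟨o, ho, ho'⟩ := hcov (F, i) hj (α, β, γ) (by
      rw [hOb]
      unfold EBox
      rw [mem_filter, mem_product, mem_product, mem_Ioc, mem_Ioc, mem_Ioc]
      refine ⟨⟨⟨?_, ?_⟩, ?_, ?_⟩, ?_⟩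
      · show ((A i : ℕ) : ℤ) < α
        have h1 : A i < α.toNat := hi1
        omega
      · show α ≤ ((A (i + 1) : ℕ) : ℤ)
        have h1 : α.toNat ≤ A (i + 1) := hi2
        omega
      · show -⌊Rb⌋ - 1 < β ∧ β ≤ ⌊Rb⌋
        apply gb2_abs (x := (β : ℝ) ^ 2) le_rfl _ hRb0
        rw [hRb, div_pow, hs2, le_div_iff₀ hG0]
        exact beta_bd hG0 hKR hDa (hC.trans (le_mul_of_one_le_right (by linarith) hX1')) hg1.le hn k11R
      · show -⌊Rc⌋ - 1 < γ ∧ γ ≤ ⌊Rc⌋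
        have hγR : |(γ : ℝ)| ≤ α := by exact_mod_cast k7
        apply gb2_abs (x := (α : ℝ) ^ 2) _ _ hRc0
        · rw [← sq_abs (γ : ℝ)]
          exact pow_le_pow_left₀ (abs_nonneg _) hγR 2
        · rw [hRc, ← hαnR]
          exact pow_le_pow_left₀ (Nat.cast_nonneg _) hupp 2
      · show α ∣ β * γ + 1
        exact ⟨δ, by linarith⟩)
    refine ⟨o, ho, ?_⟩
    rw [ho', hfb]
    simp only
    rw [hem]
    exact k8
  · -- the cardinality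
    have h1 := hsum (fun _ => (1 : ℝ))
    rw [sum_const, nsmul_eq_mul, mul_one] at h1
    rw [h1]
    have h2 : ∀ j ∈ J, ∑ t ∈ Ob j, (1 : ℝ) ≤ (2 * E * W + 1) * X := by
      intro j hj
      rw [hJ, mem_product, mem_range] at hj
      rw [sum_const, nsmul_eq_mul, mul_one]
      have h3 := H2 X hXX2 (A j.2) (A (j.2 + 1)) (-⌊Rb⌋ - 1) ⌊Rb⌋ (-⌊Rc⌋ - 1) ⌊Rc⌋ (hA1 j.2).2
        (hA4 j.2) ((hAU j.2 hj.2).trans b1) (by omega) (hBlen.trans (hEU.trans b1)) (by omega)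
        (hClen.trans (hWU.trans b1))
      have h4 : X ^ (1 - c2) ≤ X := by
        calc X ^ (1 - c2) ≤ X ^ (1 : ℝ) := Real.rpow_le_rpow_of_exponent_le hX1' (by linarith)
          _ = X := Real.rpow_one X
      have hClen0 : 0 ≤ ((⌊Rc⌋ : ℤ) : ℝ) - ((-⌊Rc⌋ - 1 : ℤ) : ℝ) := by
        have : (0 : ℝ) ≤ ((⌊Rc⌋ : ℤ) : ℝ) := by exact_mod_cast hfc0
        push_cast
        linarith
      have h5 : (((⌊Rb⌋ : ℤ) : ℝ) - ((-⌊Rb⌋ - 1 : ℤ) : ℝ)) *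
          (((⌊Rc⌋ : ℤ) : ℝ) - ((-⌊Rc⌋ - 1 : ℤ) : ℝ)) ≤ (E * (X / s)) * (W * s) :=
        mul_le_mul hBlen hClen hClen0 (by positivity)
      have h6 : (E * (X / s)) * (W * s) = E * W * X := by field_simp
      rw [h6] at h5
      rw [mul_assoc 2] at h3
      linarith
    have h3 := sum_le_sum h2
    rw [sum_const, nsmul_eq_mul] at h3
    refine h3.trans ?_
    have h4 : 0 ≤ (2 * E * W + 1) * X := by positivity
    have e : (J.card + 1) * (2 * E * W + 1) * X = (J.card : ℝ) * ((2 * E * W + 1) * X) +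
      (2 * E * W + 1) * X := by ring
    rw [e]
    linarith
  · -- equidistribution
    intro T hT hcop hL h hper h01
    have hone : ∀ j ∈ J, |∑ t ∈ Ob j, ∏ m ∈ T, h m (fb j t) -
        ((Ob j).card : ℝ) * ∏ m ∈ T, mD D m (h m)| ≤ X ^ (1 - c1) := by
      intro j hj
      rw [hJ, mem_product, mem_range, hFs, mem_filter] at hj
      exact H1 X hXX1 j.1 hj.1.2 (A j.2) (A (j.2 + 1)) (-⌊Rb⌋ - 1) ⌊Rb⌋ (-⌊Rc⌋ - 1) ⌊Rc⌋
        (hA1 j.2).1 (hA12 j.2) ((hAU j.2 hj.2).trans a1) (by omega)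
        (hBlen.trans (hEU.trans a1)) (by omega) (hClen.trans (hWU.trans a1)) T hT hcop
        (hL.trans (Real.rpow_le_rpow_of_exponent_le hX1' (by linarith))) h hper h01
    have e1 := hsum (fun q => ∏ m ∈ T, h m q)
    have e2 := hsum (fun _ => (1 : ℝ))
    rw [sum_const, nsmul_eq_mul, mul_one] at e2
    rw [e1, e2, sum_mul, ← sum_sub_distrib]
    refine (abs_sum_le_sum_abs _ _).trans ?_
    have h3 : ∑ j ∈ J, |∑ t ∈ Ob j, ∏ m ∈ T, h m (fb j t) -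
        (∑ t ∈ Ob j, (1 : ℝ)) * ∏ m ∈ T, mD D m (h m)| ≤ ∑ _j ∈ J, X ^ (1 - c1) := by
      refine sum_le_sum fun j hj => ?_
      rw [sum_const, nsmul_eq_mul, mul_one]
      exact hone j hj
    refine h3.trans ?_
    rw [sum_const, nsmul_eq_mul]
    refine le_trans ?_ a4
    apply mul_le_mul_of_nonneg_right _ (Real.rpow_nonneg hX0.le _)
    rw [hQ]
    linarith

end Pool.Agent.AQ.MJ
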